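import Pool.Agent.Results.MP_fa7d23_ag.NefNotB

/-!
Reformulation of the facts proved in `Pool.Agent.Results.MP_fa7d23_ag.NefNotB` (fifteen points on a
rational quartic, twelve of them on a cubic) in the form needed for the frozen statement `S00566`.
-/

set_option autoImplicit false

open MvPolynomial

namespace Pool.Agent.R846.NefFrozen

open Pool.Agent.Results.MP_fa7d23_ag.NefNotB

variable {k : Type*} [Field k]

section Parts

variable {b : Fin 3 → k} {t : Fin 12 → k} {u : Fin 3 → k}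

lemma eff (t : Fin 12 → k) (u : Fin 3 → k) :
    ∃ f : MvPolynomial (Fin 3) k, f ≠ 0 ∧ f.IsHomogeneous 4 ∧
        ∀ i, f ∈ (Ideal.span (Set.range fun ab : Fin 3 × Fin 3 =>
            MvPolynomial.C (cfg t u i ab.1) * MvPolynomial.X ab.2
              - MvPolynomial.C (cfg t u i ab.2) * MvPolynomial.X ab.1) :
              Ideal (MvPolynomial (Fin 3) k)) ^ 1 := by
  refine ⟨Q4, Q4_ne_zero, Q4_hom, fun i => ?_⟩
  rw [pow_one]
  exact Q4_mem _

lemma nef (hinj : Function.Injective (Fin.append t u : Fin (12 + 3) → k)) :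
    ∀ (e : ℕ) (g : MvPolynomial (Fin 3) k), g.IsHomogeneous e → Irreducible g →
        ∀ μ : Fin 15 → ℕ,
          (∀ i, g ∈ (Ideal.span (Set.range fun ab : Fin 3 × Fin 3 =>
            MvPolynomial.C (cfg t u i ab.1) * MvPolynomial.X ab.2
              - MvPolynomial.C (cfg t u i ab.2) * MvPolynomial.X ab.1) :
              Ideal (MvPolynomial (Fin 3) k)) ^ μ i) →
          ∑ i, 1 * μ i ≤ 4 * e := by
  intro n F hF hirr c hc
  have hF0 : F ≠ 0 := hirr.ne_zero
  simp only [one_mul]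
  by_cases hd : Q4 ∣ F
  · have hassoc : Associated (Q4 : MvPolynomial (Fin 3) k) F :=
      Q4_prime.irreducible.associated_of_dvd hirr hd
    obtain ⟨v, hv⟩ := hassoc
    have hvu := v.isUnit
    rw [MvPolynomial.isUnit_iff_totalDegree_of_isReduced] at hvu
    have hvC : (v : MvPolynomial (Fin 3) k) = C (coeff 0 (v : MvPolynomial (Fin 3) k)) :=
      totalDegree_eq_zero_iff_eq_C.1 hvu.2
    have ha : coeff 0 (v : MvPolynomial (Fin 3) k) ≠ 0 := hvu.1.ne_zero
    have hFe : F = C (coeff 0 (v : MvPolynomial (Fin 3) k)) * Q4 := by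
      rw [← hv, mul_comm, ← hvC]
    have hn : n = 4 := by
      have h2 : F.IsHomogeneous 4 := by
        rw [hFe]; exact Q4_hom.C_mul _
      exact hF.inj_right h2 hF0
    have hc1 : ∀ i, c i ≤ 1 := by
      intro i
      have := hc i
      rw [hFe] at this
      exact le_one_of_mem ha this
    have : ∑ i, c i ≤ ∑ _i : Fin 15, 1 :=
      Finset.sum_le_sum fun i _ => hc1 i
    simp at this
    rw [hn]
    omega
  · have hp0 : par F ≠ 0 := fun h => hd (Q4_dvd_of_par hF h)
    have hdvd : (∏ i, (Polynomial.X -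
        Polynomial.C ((Fin.append t u : Fin (12 + 3) → k) i)) ^ (c i)) ∣ par F := by
      apply Finset.prod_dvd_of_coprime
      · intro i _ j _ hij
        exact (Polynomial.pairwise_coprime_X_sub_C hinj hij).pow
      · intro i _
        exact par_mem _ (hc i)
    have h1 := Polynomial.natDegree_le_of_dvd hdvd hp0
    have h2 : (∏ i, (Polynomial.X -
        Polynomial.C ((Fin.append t u : Fin (12 + 3) → k) i)) ^ (c i)).natDegree = ∑ i, c i := by
      rw [Polynomial.natDegree_prod_of_monic]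
      · apply Finset.sum_congr rfl
        intro i _
        rw [Polynomial.natDegree_pow, Polynomial.natDegree_X_sub_C, mul_one]
      · intro i _
        exact (Polynomial.monic_X_sub_C _).pow _
    have h3 := par_deg hF
    rw [h2] at h1
    exact h1.trans h3

lemma eff_of (p : Fin 15 → Fin 3 → k) (e : ℕ) (γ : Fin 15 → ℤ)
    (h : ∃ f : MvPolynomial (Fin 3) k, f ≠ 0 ∧ f.IsHomogeneous e ∧
          ∀ i, f ∈ (Ideal.span (Set.range fun ab : Fin 3 × Fin 3 =>
            MvPolynomial.C (p i ab.1) * MvPolynomial.X ab.2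
              - MvPolynomial.C (p i ab.2) * MvPolynomial.X ab.1) :
              Ideal (MvPolynomial (Fin 3) k)) ^ (γ i).toNat) :
    Effective p ((e : ℤ), γ) := by
  obtain ⟨f, hf0, hfh, hf⟩ := h
  intro hb
  have : f ∈ H0 p ((e : ℤ), γ) := by
    rw [mem_H0 _ _ _ hf0]
    exact ⟨Int.natCast_nonneg _, hfh, fun i => hf i⟩
  rw [hb, Submodule.mem_bot] at this
  exact hf0 this

lemma notB (hP : P12 b = ∏ i, (Polynomial.X - Polynomial.C (t i)))
    (hinj : Function.Injective (Fin.append t u : Fin (12 + 3) → k))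
    (hu : (u 0 + u 1 + u 2) ^ 2 ≠ u 0 * u 1 + u 0 * u 2 + u 1 * u 2) :
    ¬ ∃ (e : ℕ) (γ : Fin 15 → ℤ), (e ≠ 0 ∨ γ ≠ 0) ∧
        (∃ f : MvPolynomial (Fin 3) k, f ≠ 0 ∧ f.IsHomogeneous e ∧
          ∀ i, f ∈ (Ideal.span (Set.range fun ab : Fin 3 × Fin 3 =>
            MvPolynomial.C (cfg t u i ab.1) * MvPolynomial.X ab.2
              - MvPolynomial.C (cfg t u i ab.2) * MvPolynomial.X ab.1) :
              Ideal (MvPolynomial (Fin 3) k)) ^ (γ i).toNat) ∧
        e ≤ 4 ∧
        (∃ f : MvPolynomial (Fin 3) k, f ≠ 0 ∧ f.IsHomogeneous (4 - e) ∧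
          ∀ i, f ∈ (Ideal.span (Set.range fun ab : Fin 3 × Fin 3 =>
            MvPolynomial.C (cfg t u i ab.1) * MvPolynomial.X ab.2
              - MvPolynomial.C (cfg t u i ab.2) * MvPolynomial.X ab.1) :
              Ideal (MvPolynomial (Fin 3) k)) ^ (((1 : ℕ) : ℤ) - γ i).toNat) ∧
        (e : ℤ) ^ 2 - ∑ i, (γ i) ^ 2 - 3 * (e : ℤ) + ∑ i, γ i > -2 ∧
        ((4 : ℕ) : ℤ) * (e : ℤ) - ∑ i, ((1 : ℕ) : ℤ) * γ i = 0 := by
  rintro ⟨e, γ, hne, hf, he, hf', hpa, hint⟩
  apply cfg_notB hP hinj hu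
  refine ⟨((e : ℤ), γ), ?_, eff_of _ _ _ hf, ?_, ?_, ?_⟩
  · intro h
    rcases hne with h1 | h1
    · exact h1 (by have h2 := congrArg Prod.fst h; simpa using h2)
    · exact h1 (congrArg Prod.snd h)
  · have := eff_of (cfg t u) (4 - e) (fun i => ((1 : ℕ) : ℤ) - γ i) hf'
    have e1 : ((4, fun _ => 1) : Cls 15) - ((e : ℤ), γ) =
        (((4 - e : ℕ) : ℤ), fun i => ((1 : ℕ) : ℤ) - γ i) := by
      ext i
      · simp; omega
      · simp
    rw [e1]
    exact this
  · have hev : ∃ z : ℤ, (e : ℤ) ^ 2 - ∑ i, (γ i) ^ 2 - 3 * (e : ℤ) + ∑ i, γ i = 2 * z := by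
      have h1 : ∀ x : ℤ, ∃ z, x ^ 2 - x = 2 * z := by
        intro x
        have := Int.even_mul_pred_self x
        obtain ⟨z, hz⟩ := this
        exact ⟨z, by linarith [show x ^ 2 - x = x * (x - 1) by ring]⟩
      choose z hz using h1
      refine ⟨z e - e - ∑ i, z (γ i), ?_⟩
      have h2 : ∑ i, (γ i) ^ 2 - ∑ i, γ i = 2 * ∑ i, z (γ i) := by
        rw [Finset.mul_sum, ← Finset.sum_sub_distrib]
        exact Finset.sum_congr rfl fun i _ => hz _
      have h3 := hz e
      linarith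
    obtain ⟨z, hz⟩ := hev
    have : inter ((e : ℤ), γ) ((e : ℤ), γ) + inter (canon 15) ((e : ℤ), γ) = 2 * z := by
      rw [← hz]
      simp only [inter, canon, neg_mul, one_mul, Finset.sum_neg_distrib]
      have : ∑ i, γ i * γ i = ∑ i, (γ i) ^ 2 := Finset.sum_congr rfl fun i _ => by ring
      rw [this]
      ring
    rw [pa, this, Int.mul_ediv_cancel_left _ (by norm_num)]
    omega
  · simp only [inter]
    push_cast at hint
    simpa using hint

lemma final (hP : P12 b = ∏ i, (Polynomial.X - Polynomial.C (t i))) (m : ℕ) (hm : 1 ≤ m)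
    (h : 2 * (Module.finrank k
        ↥(MvPolynomial.homogeneousSubmodule (Fin 3) k (m * 4) ⊓
          ⨅ i, Submodule.restrictScalars k
            ((Ideal.span (Set.range fun ab : Fin 3 × Fin 3 =>
              MvPolynomial.C (cfg t u i ab.1) * MvPolynomial.X ab.2
                - MvPolynomial.C (cfg t u i ab.2) * MvPolynomial.X ab.1) :
                Ideal (MvPolynomial (Fin 3) k)) ^ (m * 1))) : ℤ)
        = 2 + ((m * 4 : ℕ) : ℤ) ^ 2 - ∑ _i : Fin 15, ((m * 1 : ℕ) : ℤ) ^ 2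
            + 3 * ((m * 4 : ℕ) : ℤ) - ∑ _i : Fin 15, ((m * 1 : ℕ) : ℤ)) : False := by
  obtain ⟨n, rfl⟩ : ∃ n, m = n + 1 := ⟨m - 1, by omega⟩
  have h1 := cfg_h1 (u := u) hP n
  rw [h1_eq_superabundance] at h1
  have e1 : H0 (cfg t u) (((4 * (n + 1) : ℕ) : ℤ), fun _ => ((n + 1 : ℕ) : ℤ)) =
      (MvPolynomial.homogeneousSubmodule (Fin 3) k ((n + 1) * 4) ⊓
          ⨅ i, Submodule.restrictScalars k
            ((Ideal.span (Set.range fun ab : Fin 3 × Fin 3 =>
              MvPolynomial.C (cfg t u i ab.1) * MvPolynomial.X ab.2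
                - MvPolynomial.C (cfg t u i ab.2) * MvPolynomial.X ab.1) :
                Ideal (MvPolynomial (Fin 3) k)) ^ ((n + 1) * 1))) := by
    rw [H0_coe (cfg t u) (4 * (n + 1)) (fun _ => n + 1), mul_comm 4 (n + 1), mul_one]
    rfl
  rw [e1] at h1
  have k1 := key_choose (4 * (n + 1) + 1)
  have k2 := key_choose (n + 1)
  simp only [Finset.sum_const, Finset.card_univ, Fintype.card_fin, mul_one] at h h1
  push_cast at h h1 k1 k2
  rw [show 4 * (n + 1) + 1 + 1 = 4 * (n + 1) + 2 by ring] at k1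
  simp only [nsmul_eq_mul] at h h1
  push_cast at h h1
  nlinarith

end Parts

end Pool.Agent.R846.NefFrozen
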